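import Mathlib
import Pool.Agent.R172.Steinitz

set_option autoImplicit false

/-!
# The Helly number of the k-almost-neighborly sets

A finite set `A` in a `d`-dimensional space is `k`-almost-neighborly if and only if every subset
of `A` with at most `2 d + 1` points is `k`-almost-neighborly, for every `k ≤ 2 d + 1`. The
boundaries are taken in an arbitrary fixed affine subspace `L` which contains `A`.

Proof: let `p` be a point of `conv B`, `|B| = k`, in the interior of `conv A` (in `L`). By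
Carathéodory's theorem `p` is in the relative interior of a simplex with vertices
`z₁, ..., z_j` in `B`. A relative form of the theorem of Steinitz, applied to the functionals which
are constant on this simplex, gives a set `C ⊆ A` with at most `2 d + 2 - j` points which contains
the vertices of the simplex and has `p` in the interior of its hull.
-/

namespace Pool.Agent.Results.MP_aae461_co.HellyNumber

open Set Module Pool.Agent.R172

/-- The boundary of `s` in the affine subspace `L`. -/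
def relFrontier {d : ℕ} (L : AffineSubspace ℝ (EuclideanSpace ℝ (Fin d)))
    (s : Set (EuclideanSpace ℝ (Fin d))) : Set (EuclideanSpace ℝ (Fin d)) :=
  (↑) '' frontier ((↑) ⁻¹' s : Set L)

/-- The set `A` is `k`-almost-neighborly, where the boundary of the hull of `A` is taken in the
affine subspace `L`. For `L = affineSpan ℝ A` this is the relative boundary, for `L = ⊤` it is the
boundary in the whole space. -/
def AlmostNeighborly {d : ℕ} (L : AffineSubspace ℝ (EuclideanSpace ℝ (Fin d))) (k : ℕ)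
    (A : Finset (EuclideanSpace ℝ (Fin d))) : Prop :=
  ∀ B ⊆ A, B.card = k →
    convexHull ℝ (B : Set (EuclideanSpace ℝ (Fin d))) ⊆
      relFrontier L (convexHull ℝ (A : Set (EuclideanSpace ℝ (Fin d))))

variable {d : ℕ}

lemma mem_relFrontier {L : AffineSubspace ℝ (EuclideanSpace ℝ (Fin d))}
    {s : Set (EuclideanSpace ℝ (Fin d))} {p : EuclideanSpace ℝ (Fin d)} (hp : p ∈ s)
    (hpL : p ∈ L) :
    p ∈ relFrontier L s ↔ ¬ ∃ ε > 0, ∀ q, q ∈ L → dist q p < ε → q ∈ s := by
  unfold relFrontier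
  constructor
  · rintro ⟨⟨p', hp'L⟩, hp', rfl⟩ ⟨ε, hε, h⟩
    apply hp'.2
    rw [mem_interior_iff_mem_nhds, Metric.mem_nhds_iff]
    exact ⟨ε, hε, fun q hq => h q q.2 hq⟩
  · intro h
    refine ⟨⟨p, hpL⟩, ⟨subset_closure hp, fun hint => h ?_⟩, rfl⟩
    rw [mem_interior_iff_mem_nhds, Metric.mem_nhds_iff] at hint
    obtain ⟨ε, hε, hsub⟩ := hint
    refine ⟨ε, hε, fun q hqL hq => ?_⟩
    have h1 : (⟨q, hqL⟩ : L) ∈ Metric.ball (⟨p, hpL⟩ : L) ε := by
      rw [Metric.mem_ball, Subtype.dist_eq]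
      exact hq
    exact mem_preimage.1 (hsub h1)

lemma hull_subset {L : AffineSubspace ℝ (EuclideanSpace ℝ (Fin d))}
    {A : Finset (EuclideanSpace ℝ (Fin d))} (hA : (A : Set (EuclideanSpace ℝ (Fin d))) ⊆ L) :
    convexHull ℝ (A : Set (EuclideanSpace ℝ (Fin d))) ⊆ L :=
  convexHull_min hA L.convex

/-- A failing set contains a small failing set. -/
lemma exists_small_failing {k : ℕ} (hk : k ≤ 2 * d + 1)
    {L : AffineSubspace ℝ (EuclideanSpace ℝ (Fin d))} {A : Finset (EuclideanSpace ℝ (Fin d))}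
    (hA : (A : Set (EuclideanSpace ℝ (Fin d))) ⊆ L) (h : ¬ AlmostNeighborly L k A) :
    ∃ C ⊆ A, C.card ≤ 2 * d + 1 ∧ ¬ AlmostNeighborly L k C := by
  classical
  unfold AlmostNeighborly at h
  push Not at h
  obtain ⟨B, hBA, hBk, hB⟩ := h
  obtain ⟨p, hpB, hpn⟩ := not_subset.1 hB
  have hpA : p ∈ convexHull ℝ (A : Set (EuclideanSpace ℝ (Fin d))) :=
    convexHull_mono (Finset.coe_subset.2 hBA) hpB
  have hpL : p ∈ L := hull_subset hA hpA
  rw [mem_relFrontier hpA hpL, not_not] at hpn
  obtain ⟨ε, hε, hnhd⟩ := hpn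
  have hmemL : ∀ q, q - p ∈ L.direction ↔ q ∈ L := by
    intro q
    rw [← vsub_eq_sub]
    exact AffineSubspace.vsub_right_mem_direction_iff_mem hpL q
  have hPS : PS L.direction A p :=
    PS.of_nhd hε (fun q hq hd => hnhd q ((hmemL q).1 hq) hd)
  -- a simplex through `p`
  obtain ⟨ι', hι, z', w', hz', haff', hw', hw1', hwz'⟩ := eq_pos_convex_span_of_mem_convexHull hpB
  let e := Fintype.equivFin ι'
  let j := Fintype.card ι'
  let z : Fin j → EuclideanSpace ℝ (Fin d) := z' ∘ e.symm
  let w : Fin j → ℝ := w' ∘ e.symm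
  have haff : AffineIndependent ℝ z := haff'.comp_embedding e.symm.toEmbedding
  have hw : ∀ i, 0 < w i := fun i => hw' _
  have hw1 : ∑ i, w i = 1 := by rw [← hw1']; exact e.symm.sum_comp w'
  have hwz : ∑ i, w i • z i = p := by
    rw [← hwz']; exact e.symm.sum_comp (fun i => w' i • z' i)
  have hzB : ∀ i, z i ∈ B := fun i => hz' ⟨e.symm i, rfl⟩
  obtain ⟨C₀, hC₀A, hzC₀, hPSC, hcard⟩ := hPS.exists_through haff hw hw1 hwz
    (fun i => hBA (hzB i)) (fun i => (hmemL _).2 (hA (hBA (hzB i))))
  have hj : 1 ≤ j := by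
    by_contra hlt
    have hj0 : j = 0 := by omega
    have : ∑ i, w i = 0 := by
      apply Finset.sum_eq_zero
      intro i
      exact absurd i.2 (by omega)
    rw [hw1] at this
    exact one_ne_zero this
  have hrank : finrank ℝ L.direction ≤ d := by
    have := Submodule.finrank_le L.direction
    rwa [finrank_euclideanSpace, Fintype.card_fin] at this
  have hC₀card : C₀.card ≤ 2 * d + 1 := by omega
  have hC₀ne : C₀.Nonempty := ⟨z ⟨0, hj⟩, hzC₀ _⟩
  have hC₀L : (C₀ : Set (EuclideanSpace ℝ (Fin d))) ⊆ L := (Finset.coe_subset.2 hC₀A).trans hA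
  obtain ⟨ε', hε', hnhd'⟩ := hPSC.exists_nhd hC₀ne (fun x hx => (hmemL x).2 (hC₀L hx))
  -- the vertices of the simplex
  let B' := Finset.univ.image z
  have hB'B : B' ⊆ B := by
    intro x hx
    obtain ⟨i, -, rfl⟩ := Finset.mem_image.1 hx
    exact hzB i
  have hB'C₀ : B' ⊆ C₀ := by
    intro x hx
    obtain ⟨i, -, rfl⟩ := Finset.mem_image.1 hx
    exact hzC₀ i
  have hpB' : p ∈ convexHull ℝ (B' : Set (EuclideanSpace ℝ (Fin d))) := by
    rw [← hwz]
    refine Convex.sum_mem (convex_convexHull ℝ _) (fun i _ => (hw i).le) hw1 (fun i _ => ?_)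
    apply subset_convexHull
    exact Finset.mem_coe.2 (Finset.mem_image_of_mem z (Finset.mem_univ i))
  have hB'k : B'.card ≤ k := by
    rw [← hBk]
    exact Finset.card_le_card hB'B
  -- the final set
  have hfinal : ∃ C ⊆ A, C.card ≤ 2 * d + 1 ∧ C₀ ⊆ C ∧ ∃ B'' ⊆ C, B' ⊆ B'' ∧ B''.card = k := by
    rcases le_total k C₀.card with hle | hle
    · obtain ⟨B'', h1, h2, h3⟩ := Finset.exists_subsuperset_card_eq hB'C₀ hB'k hle
      exact ⟨C₀, hC₀A, hC₀card, Finset.Subset.refl _, B'', h2, h1, h3⟩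
    · have hAk : k ≤ A.card := by
        rw [← hBk]
        exact Finset.card_le_card hBA
      obtain ⟨C, h1, h2, h3⟩ := Finset.exists_subsuperset_card_eq hC₀A hle hAk
      exact ⟨C, h2, by omega, h1, C, Finset.Subset.refl _, hB'C₀.trans h1, h3⟩
  obtain ⟨C, hCA, hCcard, hC₀C, B'', hB''C, hB'B'', hB''k⟩ := hfinal
  refine ⟨C, hCA, hCcard, fun hAN => ?_⟩
  have hpB'' : p ∈ convexHull ℝ (B'' : Set (EuclideanSpace ℝ (Fin d))) :=
    convexHull_mono (Finset.coe_subset.2 hB'B'') hpB'
  have hpC : p ∈ convexHull ℝ (C : Set (EuclideanSpace ℝ (Fin d))) :=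
    convexHull_mono (Finset.coe_subset.2 hB''C) hpB''
  have := hAN B'' hB''C hB''k hpB''
  rw [mem_relFrontier hpC hpL] at this
  apply this
  exact ⟨ε', hε', fun q hqL hd => convexHull_mono (Finset.coe_subset.2 hC₀C)
    (hnhd' q ((hmemL q).2 hqL) hd)⟩

/-- **The question has a positive answer**: for `k ≤ 2 d + 1`, a finite set `A ⊆ ℝᵈ` is
`k`-almost-neighborly if and only if every subset of `A` with at most `2 d + 1` points is
`k`-almost-neighborly. The boundaries of the hulls are taken in an arbitrary fixed affine subspace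
`L` which contains `A` (for instance `L = affineSpan ℝ A` or `L = ⊤`). -/
theorem result (d k : ℕ) (hk : k ≤ 2 * d + 1)
    (L : AffineSubspace ℝ (EuclideanSpace ℝ (Fin d))) (A : Finset (EuclideanSpace ℝ (Fin d)))
    (hA : (A : Set (EuclideanSpace ℝ (Fin d))) ⊆ L) :
    AlmostNeighborly L k A ↔ ∀ C ⊆ A, C.card ≤ 2 * d + 1 → AlmostNeighborly L k C := by
  constructor
  · intro h C hCA _ B hBC hBk p hpB
    have hpC : p ∈ convexHull ℝ (C : Set (EuclideanSpace ℝ (Fin d))) :=
      convexHull_mono (Finset.coe_subset.2 hBC) hpB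
    have hpA : p ∈ convexHull ℝ (A : Set (EuclideanSpace ℝ (Fin d))) :=
      convexHull_mono (Finset.coe_subset.2 hCA) hpC
    have hpL : p ∈ L := hull_subset hA hpA
    rw [mem_relFrontier hpC hpL]
    rintro ⟨ε, hε, hnhd⟩
    have := h B (hBC.trans hCA) hBk hpB
    rw [mem_relFrontier hpA hpL] at this
    exact this ⟨ε, hε, fun q hqL hd => convexHull_mono (Finset.coe_subset.2 hCA) (hnhd q hqL hd)⟩
  · intro h
    by_contra hcon
    obtain ⟨C, hCA, hCcard, hC⟩ := exists_small_failing hk hA hcon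
    exact hC (h C hCA hCcard)

end Pool.Agent.Results.MP_aae461_co.HellyNumber
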